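import Pool.Agent.N299.DT.Stm2

/-!
One-sided approximate intertwining.
-/

set_option autoImplicit false

open Filter Topology

namespace Pool.Agent.N438.DT

open Pool.Agent.N299.DT

section

variable {A B : Type} [CStarAlgebra A] [CStarAlgebra B]

/-- conjugation of a homomorphism by a unitary -/
noncomputable def cj (ι : A →⋆ₐ[ℂ] B) (w : B) (hw : w ∈ unitary B) : A →⋆ₐ[ℂ] B where
  toFun a := w * ι a * star w
  map_one' := by
    rw [map_one, mul_one]
    exact Unitary.mul_star_self_of_mem hw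
  map_mul' a b := by
    rw [map_mul]
    calc w * (ι a * ι b) * star w = w * ι a * 1 * ι b * star w := by
          simp only [mul_one, mul_assoc]
      _ = w * ι a * (star w * w) * ι b * star w := by rw [Unitary.star_mul_self_of_mem hw]
      _ = _ := by simp only [mul_assoc]
  map_zero' := by rw [map_zero, mul_zero, zero_mul]
  map_add' a b := by rw [map_add, mul_add, add_mul]
  commutes' r := by
    rw [AlgHomClass.commutes, ← Algebra.commutes, mul_assoc, Unitary.mul_star_self_of_mem hw,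
      mul_one]
  map_star' a := by
    rw [map_star, star_mul, star_mul, star_star, mul_assoc]

theorem cj_apply (ι : A →⋆ₐ[ℂ] B) (w : B) (hw : w ∈ unitary B) (a : A) :
    cj ι w hw a = w * ι a * star w := rfl

/-- limits of isometric homomorphisms -/
theorem lim_hom (φ : ℕ → A →⋆ₐ[ℂ] B) (hiso : ∀ n a, ‖φ n a‖ = ‖a‖) (D : Set A) (hD : Dense D)
    (hC : ∀ a ∈ D, CauchySeq fun n => φ n a) : ∃ lam : A →⋆ₐ[ℂ] B, (∀ a, ‖lam a‖ = ‖a‖) ∧
      ∀ a, Tendsto (fun n => φ n a) atTop (𝓝 (lam a)) := by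
  have hall : ∀ a, CauchySeq fun n => φ n a := by
    intro a
    rw [Metric.cauchySeq_iff]
    intro ε hε
    obtain ⟨d, hd, hd2⟩ := Metric.dense_iff.1 hD a (ε / 3) (by positivity)
    have hd2' := hd
    rw [Metric.mem_ball, dist_eq_norm] at hd2'
    obtain ⟨N, hN⟩ := Metric.cauchySeq_iff.1 (hC d hd2) (ε / 3) (by positivity)
    refine ⟨N, fun m hm n hn => ?_⟩
    have h1 := hN m hm n hn
    rw [dist_eq_norm] at h1 ⊢
    have h2 : φ m a - φ n a = (φ m d - φ n d) - φ m (d - a) + φ n (d - a) := by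
      rw [map_sub, map_sub]
      abel
    rw [h2]
    calc ‖(φ m d - φ n d) - φ m (d - a) + φ n (d - a)‖ ≤
          ‖(φ m d - φ n d) - φ m (d - a)‖ + ‖φ n (d - a)‖ := norm_add_le _ _
      _ ≤ ‖φ m d - φ n d‖ + ‖φ m (d - a)‖ + ‖φ n (d - a)‖ := by
          gcongr
          exact norm_sub_le _ _
      _ < ε / 3 + ε / 3 + ε / 3 := by
          rw [hiso, hiso]
          linarith
      _ = ε := by ring
  choose lam hlam using fun a => cauchySeq_tendsto_of_complete (hall a)
  refine ⟨
    { toFun := lam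
      map_one' := ?_
      map_mul' := ?_
      map_zero' := ?_
      map_add' := ?_
      commutes' := ?_
      map_star' := ?_ }, ?_, hlam⟩
  · refine tendsto_nhds_unique (hlam 1) ?_
    simp only [map_one]
    exact tendsto_const_nhds
  · intro a b
    refine tendsto_nhds_unique (hlam (a * b)) ?_
    simp only [map_mul]
    exact (hlam a).mul (hlam b)
  · refine tendsto_nhds_unique (hlam 0) ?_
    simp only [map_zero]
    exact tendsto_const_nhds
  · intro a b
    refine tendsto_nhds_unique (hlam (a + b)) ?_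
    simp only [map_add]
    exact (hlam a).add (hlam b)
  · intro r
    refine tendsto_nhds_unique (hlam _) ?_
    simp only [AlgHomClass.commutes]
    exact tendsto_const_nhds
  · intro a
    refine tendsto_nhds_unique (hlam (star a)) ?_
    simp only [map_star]
    exact (hlam a).star
  · intro a
    refine tendsto_nhds_unique (hlam a).norm ?_
    simp only [hiso]
    exact tendsto_const_nhds

/-- one step of the construction -/
theorem step (ι : A →⋆ₐ[ℂ] B)
    (h : ∀ (F : Finset A) (G : Finset B) (ε : ℝ), 0 < ε → ∃ v ∈ unitary B,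
      (∀ a ∈ F, ‖v * ι a - ι a * v‖ < ε) ∧ ∀ b ∈ G, ∃ a, ‖star v * b * v - ι a‖ < ε)
    (α : ℕ → A) (β : ℕ → B) (n : ℕ) (s : B × Finset A) : ∃ s' : B × Finset A,
      (s.1 ∈ unitary B → s'.1 ∈ unitary B) ∧ s.2 ⊆ s'.2 ∧ α n ∈ s'.2 ∧
      (s.1 ∈ unitary B → ∀ a ∈ s.2,
        ‖s'.1 * ι a * star s'.1 - s.1 * ι a * star s.1‖ ≤ (1 / 2) ^ n) ∧
      ∀ j ≤ n, ∃ a ∈ s'.2, ‖star s'.1 * β j * s'.1 - ι a‖ < (1 / 2) ^ n := by
  classical
  obtain ⟨w, F⟩ := s
  obtain ⟨v, hv, h1, h2⟩ := h F ((Finset.range (n + 1)).image fun j => star w * β j * w)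
    ((1 / 2) ^ n) (by positivity)
  have h3 : ∀ j : ℕ, ∃ a, j ≤ n → ‖star v * (star w * β j * w) * v - ι a‖ < (1 / 2) ^ n := by
    intro j
    by_cases hj : j ≤ n
    · obtain ⟨a, ha⟩ := h2 (star w * β j * w)
        (Finset.mem_image.2 ⟨j, Finset.mem_range.2 (by omega), rfl⟩)
      exact ⟨a, fun _ => ha⟩
    · exact ⟨0, fun h => absurd h hj⟩
  choose c hc using h3
  refine ⟨(w * v, F ∪ (insert (α n) ((Finset.range (n + 1)).image c))), ?_, ?_, ?_, ?_, ?_⟩
  · intro hw
    exact mul_mem hw hv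
  · exact Finset.subset_union_left
  · exact Finset.mem_union_right _ (Finset.mem_insert_self _ _)
  · intro hw a ha
    change ‖w * v * ι a * star (w * v) - w * ι a * star w‖ ≤ (1 / 2) ^ n
    have e1 : w * v * ι a * star (w * v) - w * ι a * star w =
        w * ((v * ι a - ι a * v) * star v) * star w := by
      have e2 : ι a * v * star v = ι a := by
        rw [mul_assoc, Unitary.mul_star_self_of_mem hv, mul_one]
      rw [sub_mul, e2, mul_sub, sub_mul, star_mul]
      simp only [mul_assoc]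
    rw [e1, CStarRing.norm_mul_mem_unitary _ (Unitary.star_mem hw),
      CStarRing.norm_mem_unitary_mul _ hw, CStarRing.norm_mul_mem_unitary _ (Unitary.star_mem hv)]
    exact (h1 a ha).le
  · intro j hj
    refine ⟨c j, Finset.mem_union_right _ (Finset.mem_insert_of_mem
      (Finset.mem_image.2 ⟨j, Finset.mem_range.2 (by omega), rfl⟩)), ?_⟩
    have h4 := hc j hj
    change ‖star (w * v) * β j * (w * v) - ι (c j)‖ < (1 / 2) ^ n
    have e1 : star (w * v) * β j * (w * v) = star v * (star w * β j * w) * v := by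
      rw [star_mul]
      simp only [mul_assoc]
    rw [e1]
    exact h4

end

/-- **One-sided approximate intertwining.** -/
theorem t_INT : S_INT := by
  intro A B _ _ _ _ ι hι h
  have hιn : ∀ a, ‖ι a‖ = ‖a‖ := NonUnitalStarAlgHom.norm_map ι hι
  obtain ⟨α, hα⟩ : ∃ α : ℕ → A, DenseRange α := ⟨_, TopologicalSpace.denseRange_denseSeq A⟩
  obtain ⟨β, hβ⟩ : ∃ β : ℕ → B, DenseRange β := ⟨_, TopologicalSpace.denseRange_denseSeq B⟩
  choose nx hn1 hn2 hn3 hn4 hn5 using step ι h α β
  obtain ⟨s, hs0, hss⟩ : ∃ s : ℕ → B × Finset A, s 0 = (1, ∅) ∧ ∀ n, s (n + 1) = nx n (s n) :=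
    ⟨fun n => Nat.rec (1, ∅) (fun n p => nx n p) n, rfl, fun _ => rfl⟩
  have hu : ∀ n, (s n).1 ∈ unitary B := by
    intro n
    induction n with
    | zero =>
      rw [hs0]
      exact one_mem _
    | succ n ih =>
      rw [hss]
      exact hn1 n _ ih
  have hmono : ∀ m n, m ≤ n → (s m).2 ⊆ (s n).2 := by
    intro m n hmn
    induction n, hmn using Nat.le_induction with
    | base => exact Finset.Subset.refl _
    | succ n _ ih =>
      rw [hss n]
      exact ih.trans (hn2 n _)
  obtain ⟨φ, hφ⟩ : ∃ φ : ℕ → A →⋆ₐ[ℂ] B, ∀ n a, φ n a = (s n).1 * ι a * star (s n).1 :=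
    ⟨fun n => cj ι (s n).1 (hu n), fun n a => rfl⟩
  have hgeo : ∀ m, ∀ a ∈ (s m).2, ∀ k,
      dist (φ (k + m) a) (φ (k + 1 + m) a) ≤ (1 / 2) ^ m * (1 / 2) ^ k := by
    intro m a ha k
    rw [dist_comm, dist_eq_norm, ← pow_add, hφ, hφ, show k + 1 + m = (m + k) + 1 by omega,
      show k + m = m + k by omega]
    have h1 := hn4 (m + k) (s (m + k)) (hu (m + k)) a (hmono m (m + k) (by omega) ha)
    rw [← hss (m + k)] at h1
    exact h1
  have hiso : ∀ n a, ‖φ n a‖ = ‖a‖ := by
    intro n a
    rw [hφ, CStarRing.norm_mul_mem_unitary _ (Unitary.star_mem (hu n)),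
      CStarRing.norm_mem_unitary_mul _ (hu n), hιn]
  obtain ⟨lam, hlamn, hlam⟩ := lim_hom φ hiso (Set.range α) hα (by
    rintro _ ⟨j, rfl⟩
    have h1 : α j ∈ (s (j + 1)).2 := by
      rw [hss j]
      exact hn3 j _
    rw [← cauchySeq_shift (j + 1)]
    exact cauchySeq_of_le_geometric (1 / 2) ((1 / 2) ^ (j + 1)) (by norm_num)
      (hgeo (j + 1) (α j) h1))
  have hclose : ∀ m, ∀ a ∈ (s m).2, ‖lam a - φ m a‖ ≤ 2 * (1 / 2) ^ m := by
    intro m a ha
    have h1 : Tendsto (fun k => φ (k + m) a) atTop (𝓝 (lam a)) :=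
      (hlam a).comp (tendsto_add_atTop_nat m)
    have h2 := dist_le_of_le_geometric_of_tendsto₀ (1 / 2) ((1 / 2) ^ m) (by norm_num)
      (hgeo m a ha) h1
    rw [dist_comm, dist_eq_norm, zero_add] at h2
    refine h2.trans (le_of_eq ?_)
    ring
  have hinj : Function.Injective lam := by
    intro a b hab
    have h1 := hlamn (a - b)
    rw [map_sub, hab, sub_self, norm_zero] at h1
    exact sub_eq_zero.1 (norm_eq_zero.1 h1.symm)
  have hisol : Isometry lam := AddMonoidHomClass.isometry_of_norm lam hlamn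
  have hclosed : IsClosed (Set.range lam) := hisol.isClosedEmbedding.isClosed_range
  have hsurj : Function.Surjective lam := by
    have h1 : ∀ j, β j ∈ Set.range lam := by
      intro j
      rw [← hclosed.closure_eq, Metric.mem_closure_iff]
      intro ε hε
      obtain ⟨N, hN⟩ := exists_pow_lt_of_lt_one (show 0 < ε / 2 by positivity)
        (show (1 / 2 : ℝ) < 1 by norm_num)
      obtain ⟨a, ha, ha2⟩ := hn5 (max j N) (s (max j N)) j (le_max_left _ _)
      rw [← hss] at ha ha2
      refine ⟨lam a, ⟨a, rfl⟩, ?_⟩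
      have h2 := hclose _ a ha
      have hw := hu (max j N + 1)
      obtain ⟨w, hwd⟩ : ∃ w, w = (s (max j N + 1)).1 := ⟨_, rfl⟩
      rw [hφ, ← hwd] at h2
      rw [← hwd] at hw ha2
      have h3 : ‖β j - w * ι a * star w‖ < (1 / 2) ^ (max j N) := by
        have e1 : β j - w * ι a * star w = w * (star w * β j * w - ι a) * star w := by
          rw [mul_sub, sub_mul]
          congr 1
          calc β j = 1 * β j * 1 := by rw [one_mul, mul_one]
            _ = (w * star w) * β j * (w * star w) := by rw [Unitary.mul_star_self_of_mem hw]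
            _ = _ := by simp only [mul_assoc]
        rw [e1, CStarRing.norm_mul_mem_unitary _ (Unitary.star_mem hw),
          CStarRing.norm_mem_unitary_mul _ hw]
        exact ha2
      have h4 : ((1 / 2 : ℝ)) ^ (max j N) ≤ (1 / 2) ^ N :=
        pow_le_pow_of_le_one (by norm_num) (by norm_num) (le_max_right _ _)
      rw [pow_succ] at h2
      rw [dist_eq_norm]
      calc ‖β j - lam a‖ = ‖(β j - w * ι a * star w) - (lam a - w * ι a * star w)‖ := by
            congr 1
            abel
        _ ≤ ‖β j - w * ι a * star w‖ + ‖lam a - w * ι a * star w‖ := norm_sub_le _ _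
        _ < ε := by linarith
    intro b
    have h2 : closure (Set.range β) ⊆ Set.range lam :=
      closure_minimal (by rintro _ ⟨j, rfl⟩; exact h1 j) hclosed
    exact h2 (hβ b)
  exact ⟨StarAlgEquiv.ofBijective lam ⟨hinj, hsurj⟩⟩

end Pool.Agent.N438.DT
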